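import Pool.Agent.helper58.ZB.SpecN

/-!
# Project ZB (MP_baa4d7_al), block N, row BQT (the multiplicities are rational integers)
-/

set_option autoImplicit false

namespace Pool.Agent.GB

open Pool.Agent.helper58.DC Pool.Agent.DI Pool.Agent.GR Pool.Agent.OB Pool.Agent.DR Pool.Agent.FI Pool.Agent.FI3 Pool.Agent.FI4 Pool.Agent.LE Pool.Agent.BR

theorem BQT (hBPT : BPT_stmt) (hPLT : PLT_stmt) (hCIT : CIT_stmt) (hPRI : PRI_stmt) (hPDV : PDV_stmt) : BQT_stmt := by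
  classical
  intro p M hM G _ _ D T x θ χ lo l ψ hψ ψ' hψ'
  have hp := hM.pr
  have hfact : Fact p.Prime := ⟨hp⟩
  have hpg : IsPGroup p D := lo.rt.dfa.pgrp
  have hpgT : IsPGroup p T := hpg.to_le lo.tle
  obtain ⟨N, hN⟩ := IsPGroup.iff_card.1 hpg
  obtain ⟨N', hN'⟩ := IsPGroup.iff_card.1 hpgT
  have iF : Fintype T := Fintype.ofFinite T
  have hn : 0 < Nat.card T := Nat.card_pos
  have hζ := Complex.isPrimitiveRoot_exp (Nat.card T) hn.ne'
  generalize Complex.exp (2 * Real.pi * Complex.I / (Nat.card T : ℂ)) = ζ at hζ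
  -- the data for each `u`
  have hP : ∀ u : T, ∃ P : Polynomial ℤ, ∀ s : ℕ, ¬ p ∣ s →
      (Nat.card D : ℂ) * PP p M θ ψ ψ' ((u : G) ^ s) = Polynomial.aeval (ζ ^ s) P := by
    intro u
    refine hPLT p M hM G D T x θ χ lo u u.2 ψ hψ ψ' hψ' (Nat.card T) hn ?_ ζ hζ
    have h1 : u ^ Nat.card T = 1 := pow_card_eq_one'
    have h2 := congrArg (Subtype.val : T → G) h1
    exact h2
  choose P hP using hP
  obtain ⟨-, -, hci, -⟩ := hCIT p M hM G D T x θ χ lo
  have hk : ∀ u : T, ∃ k : ℕ, ciT M D T θ u = (k : ℂ) := fun u => (hci u u.2).1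
  choose k hk using hk
  have he : ∀ u : T, ∃ e : ℕ, ζ ^ e = (l u : ℂ) := by
    intro u
    have h1 : ((l u : ℂˣ) : ℂ) ^ Nat.card T = 1 := by
      rw [← Units.val_pow_eq_pow_val, ← map_pow, pow_card_eq_one', map_one, Units.val_one]
    have : NeZero (Nat.card T) := ⟨hn.ne'⟩
    obtain ⟨e, _, he⟩ := hζ.eq_pow_of_pow_eq_one h1
    exact ⟨e, he⟩
  choose e he using he
  let Q : Polynomial ℤ := ∑ u : T, Polynomial.C (k u : ℤ) * Polynomial.X ^ e u * P u
  let F : T → ℂ := fun u => ciT M D T θ u * (l u : ℂ) * ((Nat.card D : ℂ) * PP p M θ ψ ψ' u)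
  have hQ : ∀ s : ℕ, ¬ p ∣ s → Polynomial.aeval (ζ ^ s) Q = ∑ u : T, F (u ^ s) := by
    intro s hs
    show Polynomial.aeval (ζ ^ s) (∑ u : T, Polynomial.C (k u : ℤ) * Polynomial.X ^ e u * P u) = _
    rw [map_sum]
    refine Finset.sum_congr rfl fun u _ => ?_
    rw [map_mul, map_mul, map_pow, Polynomial.aeval_X, Polynomial.aeval_C, ← hP u s hs]
    show _ = ciT M D T θ ((u ^ s : T) : G) * (l (u ^ s) : ℂ) * ((Nat.card D : ℂ) * PP p M θ ψ ψ' ((u ^ s : T) : G))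
    have h1 : ((u ^ s : T) : G) = (u : G) ^ s := rfl
    rw [h1, (hci u u.2).2 s hs, hk u, map_pow, Units.val_pow_eq_pow_val, ← he u, ← pow_mul, ← pow_mul, mul_comm s (e u)]
    congr 2
  have hnl : (Nat.card D : ℂ) * nlT p M D T θ l ψ ψ' = (T.relIndex D : ℂ) ^ 2 * ∑ u : T, F u := by
    unfold nlT
    rw [finsum_eq_sum_of_fintype, mul_left_comm, Finset.mul_sum]
    congr 1
    refine Finset.sum_congr rfl fun u _ => ?_
    show _ = ciT M D T θ u * (l u : ℂ) * ((Nat.card D : ℂ) * PP p M θ ψ ψ' u)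
    ring
  have h1p : ¬ p ∣ 1 := hp.one_lt.ne' ∘ Nat.dvd_one.1
  have hQ1 : Polynomial.aeval ζ Q = ∑ u : T, F u := by
    have h1 := hQ 1 h1p
    rw [pow_one] at h1
    rw [h1]
    exact Finset.sum_congr rfl fun u _ => by rw [pow_one]
  obtain ⟨a, ha⟩ := hPRI (Nat.card T) hn Q ζ hζ (by
    intro s hs
    by_cases h1 : Nat.card T = 1
    · rw [h1] at hζ
      have h2 : ζ = 1 := by simpa using hζ.pow_eq_one
      rw [h2, one_pow]
    · have h2 : p ∣ Nat.card T := by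
        rw [hN'] at h1 ⊢
        refine dvd_pow_self p ?_
        rintro rfl
        exact h1 (pow_zero p)
      have h3 : ¬ p ∣ s := by
        intro h4
        have h5 := Nat.dvd_gcd h4 h2
        rw [Nat.Coprime] at hs
        rw [hs] at h5
        exact h1p h5
      rw [hQ s h3, hQ1]
      exact Fintype.sum_equiv (powCoprime hs.symm) (fun u => F (u ^ s)) F (fun u => rfl))
  refine hPDV p M hM N _ ((T.relIndex D : ℤ) ^ 2 * a) (hBPT p M hM G D T x θ χ lo l ψ hψ ψ' hψ') ?_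
  have h9 : (((T.relIndex D : ℤ) ^ 2 * a : ℤ) : ℂ) = (T.relIndex D : ℂ) ^ 2 * (a : ℂ) := by push_cast; rfl
  rw [h9, ← ha, hQ1, ← hnl, hN]
  push_cast
  rfl

end Pool.Agent.GB
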