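import Pool.Agent.helper7.ZB.SpecT

set_option autoImplicit false

namespace Pool.Agent.ZB

open Pool.Agent.helper58.DC Pool.Agent.DI Pool.Agent.GR Pool.Agent.OB Pool.Agent.DR Pool.Agent.FI Pool.Agent.FI3 Pool.Agent.FI4 Pool.Agent.FI4I Pool.Agent.LE Pool.Agent.L5 Pool.Agent.NAB

theorem ZFA_cjS {G : Type} [Group G] {R : Subgroup G} (hR : nz R = ⊤) (g : G) : cjS g (cz R) = cz R := by
  ext x
  rw [mem_cjS]
  constructor
  · intro h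
    have h1 := cz_conj (D := R) (g := g) (by rw [hR]; exact Subgroup.mem_top g) h
    have h2 : g * (g⁻¹ * x * g) * g⁻¹ = x := by group
    rwa [h2] at h1
  · intro h
    have h1 := cz_conj (D := R) (g := g⁻¹) (by rw [hR]; exact Subgroup.mem_top _) h
    rwa [inv_inv] at h1

theorem ZFA_nz {G : Type} [Group G] {R : Subgroup G} (hR : nz R = ⊤) : nz (cz R) = ⊤ := by
  refine (Subgroup.eq_top_iff' _).2 fun g => Subgroup.mem_normalizer_iff.2 fun h => ⟨fun hh => ?_, fun hh => ?_⟩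
  · exact cz_conj (by rw [hR]; exact Subgroup.mem_top g) hh
  · have h1 := cz_conj (D := R) (g := g⁻¹) (by rw [hR]; exact Subgroup.mem_top _) hh
    have h2 : g⁻¹ * (g * h * g⁻¹) * g⁻¹⁻¹ = h := by group
    rwa [h2] at h1

theorem ZFA (hNFV : NFV_stmt) (hZUH : ZUH_stmt) (hZUB : ZUB_stmt) (hZE2 : ZE2_stmt) (hCFA : CFA_stmt) (hDEX : DEX_stmt)
    (hCNTL : CNTL_stmt) (hCJG : CJG_stmt) (hTPR : Pool.Agent.FI.TPR_stmt) : ZFA_stmt := by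
  intro p κ M hS G _ _ χ hχ D x hD hK R₁ hp hcomm hn
  have hT : IrrOn (⊤ : Subgroup G) = Irr G := (hTPR p M hS G).1
  have hχ' : χ ∈ IrrOn (⊤ : Subgroup G) := by rw [hT]; exact hχ
  obtain ⟨ψ₀, hψ₀, n, hn0, hov⟩ := (hCFA G (cz R₁) ⊤ le_top (by rw [ZFA_nz hn])).1 χ hχ'
  have hinf : (⊤ : Subgroup G) ⊓ cz R₁ = cz R₁ := top_inf_eq _
  have hSB : SB M (⊤ : Subgroup G) χ ψ₀ :=
    hNFV p M hS G R₁ ⊤ hp le_top (by rw [hn]) χ hχ' ψ₀ (by rw [hinf]; exact hψ₀) n hn0 (by rw [hinf]; exact hov)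
  obtain ⟨Q₀, y₀, hQ₀, -⟩ := hDEX p M hS G (cz R₁) ψ₀ hψ₀
  have hRle : R₁ ≤ cz R₁ := by
    intro r hr
    rw [Subgroup.mem_centralizer_iff]
    intro h hh
    exact hcomm h hh r hr
  obtain ⟨l₀, hl₀, hl₀'⟩ := hCNTL p M hS G (cz R₁) R₁ hp hRle ψ₀ (by rw [inf_idem]; exact hψ₀) ψ₀ (SB.refl _ _) Q₀ y₀ hQ₀
  have hRQ : R₁ ≤ Q₀ := by
    intro r hr
    have h1 := hl₀' r hr
    have h2 := Subgroup.mem_centralizer_iff.1 hl₀ r hr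
    rw [← h2, mul_assoc, mul_inv_cancel, mul_one] at h1
    exact h1
  have hczle : (⊤ : Subgroup G) ⊓ cz Q₀ ≤ cz R₁ := by
    rw [top_inf_eq]
    intro g hg
    rw [Subgroup.mem_centralizer_iff] at hg ⊢
    intro h hh
    exact hg h (hRQ hh)
  obtain ⟨hKQ, l, -, -, hEl⟩ := hZUH p κ M hS G ⊤ (cz R₁) le_top χ hχ' D x hD hK ψ₀ hψ₀ hSB.symm Q₀ y₀ hQ₀ hczle
  have hcj : cjS l (cz R₁) = cz R₁ := ZFA_cjS hn l
  have hJ := hCJG G M p l (cz R₁)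
  have hJt := hCJG G M p l (⊤ : Subgroup G)
  obtain ⟨hK1, hE1⟩ := (hZE2 p hS.pr κ G Q₀ hKQ).2.2 l
  refine ⟨cjF l ψ₀, ?_, ?_, cjS l Q₀, l * y₀ * l⁻¹, ?_, hK1, ?_⟩
  · have h := hJ.1 ψ₀ hψ₀
    have h2 : Subgroup.map (MulEquiv.toMonoidHom (MulAut.conj l)) (cz R₁) = cz R₁ := hcj
    rw [h2] at h
    exact h
  · have h := (hJt.2.2.2.2.2.1 (Subgroup.mem_top _) ψ₀).1
    exact SB.trans h hSB.symm
  · have h := (hZUB p M hS G (cz R₁) ψ₀ _ _ hQ₀).2.1 l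
    rw [hcj] at h
    exact h
  · rw [hE1, hEl]

end Pool.Agent.ZB
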